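import Pool.Agent.U281.NP.All

set_option autoImplicit false

/-!
# Disorder of arbitrary strength: absolutely continuous spectrum for kinetic energies dense in `L^p`

Let `K` be any continuous real function on the torus `T^d`, `d ≥ 1`: the symbol of a translation
invariant self-adjoint operator on `ℓ²(ℤ^d)`, for instance of `Δ` or `-Δ`. Let `(a, b)` be any
bounded interval, `1 < p < 2`, `0 ≤ g < d / 3` and `κ, ε > 0`. There is a continuous function `f`
such that `∫ |f(λ(k))|^p dk ≤ ε`, `λ` the symbol of `-Δ`, with all hopping amplitudes of `f(-Δ)` at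
most `ε / (1 + |x|) ^ g`, such that for ALL laws of the disorder with spread at least `κ` and ALL
couplings `κ ≤ |λ| ≤ 1 / κ` the operator `K + f(-Δ) + λ V_ω` has almost surely purely absolutely
continuous spectrum filling `(a, b)`.

The spread is positive for every law which is not a point mass (`spread_pos`), so for a fixed law,
for instance the standard Gaussian law, `f` serves all couplings in an arbitrary compact subset of
`ℝ \ {0}`. In contrast to weak disorder results the strength of the disorder is arbitrary: for large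
`|λ|` the operator `-Δ + λ V_ω` itself has pure point spectrum with exponentially decaying
eigenfunctions (Fröhlich–Martinelli–Scoppola–Spencer, Aizenman–Molchanov), and `(a, b)` may
contain the whole spectrum of a bounded model, and its gaps.

The proof uses one level `R ψ₁(M λ(k))` of high frequency `M` with a truncated Cauchy law, which
creates a uniform gap of the effective medium for all these laws at once, and then infinitely many
small levels with semicircle law.
-/

namespace Pool.Agent.Results.MP_1906c1_mp.ArbitraryDisorderAC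

open MeasureTheory

noncomputable section

/-- The symbol `∑ i (2 - 2 cos (2 π k_i))` of `-Δ` on `ℤ^d`. -/
def lapSymbol (d : ℕ) : C(UnitAddTorus (Fin d), ℝ) where
  toFun k := ∑ i, (2 - 2 * (fourier 1 (k i)).re)
  continuous_toFun := by fun_prop

/-- The hopping amplitudes of the translation invariant operator with symbol `K`. -/
def hopping {d : ℕ} (K : C(UnitAddTorus (Fin d), ℝ)) (x : Fin d → ℤ) : ℂ :=
  UnitAddTorus.mFourierCoeff (fun k : UnitAddTorus (Fin d) => ((K k : ℝ) : ℂ)) x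

/-- `((K + lam V_ω) u) (y)`. -/
def H {d : ℕ} (K : C(UnitAddTorus (Fin d), ℝ)) (lam : ℝ) (ω : (Fin d → ℤ) → ℝ)
    (u : (Fin d → ℤ) → ℂ) (y : Fin d → ℤ) : ℂ :=
  (∑' y', hopping K (y - y') * u y') + ((lam * ω y : ℝ) : ℂ) * u y

/-- `u` is square summable and `(H - z) u = δ_x`, i.e. `u = (H - z)⁻¹ δ_x`. -/
def IsGreen {d : ℕ} (K : C(UnitAddTorus (Fin d), ℝ)) (lam : ℝ) (ω : (Fin d → ℤ) → ℝ) (z : ℂ)
    (x : Fin d → ℤ) (u : (Fin d → ℤ) → ℂ) : Prop :=
  Summable (fun y => ‖u y‖ ^ 2) ∧ ∀ y, H K lam ω u y - z * u y = if y = x then 1 else 0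

/-- Purely absolutely continuous spectrum filling the interval `(a, b)`: for every site `x` the
spectral measure `μ` of `δ_x`, i.e. the finite measure with
`⟨δ_x, (H - z)⁻¹ δ_x⟩ = ∫ dμ(E) / (E - z)`, has on `(a, b)` a density `h`, positive almost
everywhere there. -/
def ACOn {d : ℕ} (K : C(UnitAddTorus (Fin d), ℝ)) (lam : ℝ) (ω : (Fin d → ℤ) → ℝ)
    (a b : ℝ) : Prop :=
  ∀ x : Fin d → ℤ, ∃ (μ : Measure ℝ) (h : ℝ → ℝ), IsFiniteMeasure μ ∧
    (∀ z : ℂ, 0 < z.im → (∃ u, IsGreen K lam ω z x u) ∧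
      ∀ u, IsGreen K lam ω z x u → u x = ∫ E : ℝ, 1 / ((E : ℂ) - z) ∂μ) ∧
    Measurable h ∧ (∀ᵐ E ∂(volume.restrict (Set.Ioo a b)), 0 < h E) ∧
    μ.restrict (Set.Ioo a b)
      = (volume.restrict (Set.Ioo a b)).withDensity fun E => ENNReal.ofReal (h E)

/-- The spread `∬ (s - t)² / ((1 + s²) (1 + t²)) dν(s) dν(t)` of a law. No moments are needed. -/
def spread (ν : Measure ℝ) : ℝ :=
  ∫ p : ℝ × ℝ, (p.1 - p.2) ^ 2 / ((1 + p.1 ^ 2) * (1 + p.2 ^ 2)) ∂(ν.prod ν)

theorem spread_eq (ν : Measure ℝ) [IsProbabilityMeasure ν] :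
    W792.WA.vr ν = 2 * spread ν := by
  rw [Pool.Agent.U281.NP.Vrs.vr_eq Pool.Agent.W792.WA.Al.cay]
  simp_rw [Pool.Agent.U281.NP.Vrs.cay_sub]
  unfold spread
  have : ∀ p : ℝ × ℝ, 4 * (p.1 - p.2) ^ 2 / ((1 + p.1 ^ 2) * (1 + p.2 ^ 2))
      = 4 * ((p.1 - p.2) ^ 2 / ((1 + p.1 ^ 2) * (1 + p.2 ^ 2))) := fun p => by ring
  simp_rw [this]
  rw [integral_const_mul]
  ring

/-- The spread is positive for every law which is not a point mass. -/
theorem spread_pos (ν : Measure ℝ) [IsProbabilityMeasure ν] (h : ∀ a : ℝ, ν {a} < 1) :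
    0 < spread ν := by
  have hcont : Continuous fun p : ℝ × ℝ =>
      (p.1 - p.2) ^ 2 / ((1 + p.1 ^ 2) * (1 + p.2 ^ 2)) := by
    refine ((continuous_fst.sub continuous_snd).pow 2).div (by fun_prop) fun p => ?_
    positivity
  unfold spread
  rw [integral_pos_iff_support_of_nonneg (fun p => by positivity)]
  · rw [pos_iff_ne_zero]
    intro h0
    have hs : Function.support (fun p : ℝ × ℝ =>
        (p.1 - p.2) ^ 2 / ((1 + p.1 ^ 2) * (1 + p.2 ^ 2))) = {p : ℝ × ℝ | p.1 ≠ p.2} := by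
      ext p
      rw [Function.mem_support]
      change _ ↔ p.1 ≠ p.2
      have hp : 0 < (1 + p.1 ^ 2) * (1 + p.2 ^ 2) := by positivity
      rw [ne_eq, div_eq_zero_iff, not_or]
      constructor
      · rintro ⟨h1, -⟩ h2
        exact h1 (by rw [h2]; ring)
      · intro h1
        exact ⟨pow_ne_zero 2 (sub_ne_zero.2 h1), hp.ne'⟩
    rw [hs] at h0
    have hm : MeasurableSet {p : ℝ × ℝ | p.1 ≠ p.2} :=
      (measurableSet_eq_fun measurable_fst measurable_snd).compl
    rw [Measure.measure_prod_null hm] at h0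
    obtain ⟨x, hx⟩ := h0.exists
    have h2 : ν {x}ᶜ = 0 := by
      have e : (Prod.mk x ⁻¹' {p : ℝ × ℝ | p.1 ≠ p.2}) = {x}ᶜ := by
        ext y
        change x ≠ y ↔ y ≠ x
        exact ne_comm
      rw [← e]
      exact hx
    have h3 : ν {x} = 1 := by
      rw [prob_compl_eq_zero_iff (measurableSet_singleton x)] at h2
      exact h2
    exact absurd h3 (h x).ne
  · refine Integrable.of_bound hcont.aestronglyMeasurable 4 (ae_of_all _ fun p => ?_)
    have h1 := Pool.Agent.U281.NP.Vrs.cay_sub p.1 p.2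
    have h2 := norm_sub_le (W792.LL.cay p.1) (W792.LL.cay p.2)
    rw [(Pool.Agent.W792.WA.Al.cay).1, (Pool.Agent.W792.WA.Al.cay).1] at h2
    rw [Real.norm_of_nonneg (by positivity)]
    have h3 : 4 * (p.1 - p.2) ^ 2 / ((1 + p.1 ^ 2) * (1 + p.2 ^ 2))
        = 4 * ((p.1 - p.2) ^ 2 / ((1 + p.1 ^ 2) * (1 + p.2 ^ 2))) := by ring
    rw [h3] at h1
    nlinarith [norm_nonneg (W792.LL.cay p.1 - W792.LL.cay p.2)]

/-- Let `K` be a continuous real function on `T^d`, `d ≥ 1`, let `a < b`, `1 < p < 2`,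
`0 ≤ g < d / 3` and `κ, ε > 0`. There is a continuous function `f` with
`∫ |f(λ(k))|^p dk ≤ ε`, `λ` the symbol of `-Δ`, and hopping amplitudes of `f(-Δ)` at most
`ε / (1 + |x|) ^ g`, `|x| = max |x_i|`, such that for all probability laws `ν` with spread at least
`κ` and all couplings `κ ≤ |lam| ≤ 1 / κ` the operator `K + f(-Δ) + lam V_ω`, `ω` i.i.d. with law
`ν`, has almost surely purely absolutely continuous spectrum in `(a, b)`, filling this interval. -/
theorem result (d : ℕ) (hd : 0 < d) (K : C(UnitAddTorus (Fin d), ℝ)) (a b p g κ ε : ℝ)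
    (hab : a < b) (hp1 : 1 < p) (hp2 : p < 2) (hg0 : 0 ≤ g) (hg : g < (d : ℝ) / 3) (hκ : 0 < κ)
    (hε : 0 < ε) :
    ∃ f : C(ℝ, ℝ), (∫ k : UnitAddTorus (Fin d), |f (lapSymbol d k)| ^ p ≤ ε) ∧
      (∀ x : Fin d → ℤ, ‖hopping (f.comp (lapSymbol d)) x‖ ≤ ε / (1 + ‖x‖) ^ g) ∧
      ∀ (ν : Measure ℝ) [IsProbabilityMeasure ν], κ ≤ spread ν →
        ∀ lam : ℝ, κ ≤ |lam| → |lam| ≤ 1 / κ →
          ∀ᵐ ω ∂(Measure.infinitePi fun _ : Fin d → ℤ => ν),
            ACOn (K + f.comp (lapSymbol d)) lam ω a b := by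
  obtain ⟨f, -, h1, h2, h3⟩ :=
    Pool.Agent.U281.NP.Al.npu d K a b p g κ ε hd hab hp1 hp2 hg0 hg hκ hε
  refine ⟨f, h1, h2, fun ν _ hν lam hl1 hl2 => ?_⟩
  have h4 : κ ≤ W792.WA.vr ν := by
    rw [spread_eq]
    linarith
  exact h3 ν h4 lam hl1 hl2

end

end Pool.Agent.Results.MP_1906c1_mp.ArbitraryDisorderAC
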