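import Pool.Agent.U319.PL.K5

/-!
# Weak random long-range hopping: no eigenvalues at any disorder strength

`H = Δ + σ ξ + W` on `ℓ²(ℤ^d)`, `ξ` i.i.d. standard Gaussian, `(Δψ)(x) = ∑_{|y-x|=1} ψ(y)`, and `W` a
random hopping with independent random signs, e.g. of amplitude `ε / |x - y|^α`, `d/2 < α < d`. For
every `d ≥ 1`, every `σ ≠ 0` and every `ε ≠ 0` there are almost surely no square summable solutions
of `Hψ = Eψ`, at any energy `E ∈ ℂ`, except `ψ = 0`.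

The proof completes the unfinished project `Pool/Agent/H10R2/PL` of the starting library
(by helper10).
-/

set_option autoImplicit false

namespace Pool.Agent.Results.MP_1906c1_mp.LongRangeHoppingContinuous

open MeasureTheory ProbabilityTheory

noncomputable section

/-- the value `1` or `-1` of a sign -/
def sign (b : Bool) : ℝ := if b then 1 else -1

/-- the law of a fair coin -/
def coin : Measure Bool := (PMF.uniformOfFintype Bool).toMeasure

/-- the law of `(ξ, s)`: the `ξ x`, `x ∈ ℤ^d`, are standard Gaussian, the signs `s e` of the unordered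
pairs `e` of points of `ℤ^d` are fair coins, and all of these are independent -/
def P (d : ℕ) : Measure (((Fin d → ℤ) → ℝ) × (Sym2 (Fin d → ℤ) → Bool)) :=
  (Measure.infinitePi fun _ : (Fin d → ℤ) => gaussianReal 0 1).prod
    (Measure.infinitePi fun _ : Sym2 (Fin d → ℤ) => coin)

/-- `(H ψ)(x) = ∑_y (T(x, y) + s_{xy} κ(x - y)) ψ(y) + σ ξ(x) ψ(x)` -/
def H {d : ℕ} (T : (Fin d → ℤ) → (Fin d → ℤ) → ℝ) (κ : (Fin d → ℤ) → ℝ) (σ : ℝ)
    (ξ : (Fin d → ℤ) → ℝ) (s : Sym2 (Fin d → ℤ) → Bool) (ψ : (Fin d → ℤ) → ℂ)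
    (x : Fin d → ℤ) : ℂ :=
  (∑' y, ((T x y + sign (s s(x, y)) * κ (x - y) : ℝ) : ℂ) * ψ y) + ((σ * ξ x : ℝ) : ℂ) * ψ x

/-- Almost surely `H ψ = E ψ` has no solution in `ℓ²(ℤ^d)` besides `ψ = 0`, for any `E ∈ ℂ`. -/
def NoEigenfunctions (d : ℕ) (T : (Fin d → ℤ) → (Fin d → ℤ) → ℝ) (κ : (Fin d → ℤ) → ℝ)
    (σ : ℝ) : Prop :=
  ∀ᵐ ω ∂(P d), ∀ (E : ℂ) (ψ : (Fin d → ℤ) → ℂ), (Summable fun x => ‖ψ x‖ ^ 2) →
    (∀ x, H T κ σ ω.1 ω.2 ψ x = E * ψ x) → ψ = 0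

/-- a bounded symmetric deterministic hopping of finite range -/
structure Short {d : ℕ} (T : (Fin d → ℤ) → (Fin d → ℤ) → ℝ) : Prop where
  symm : ∀ x y, T x y = T y x
  diag : ∀ x, T x x = 0
  range : ∃ ρ : ℝ, ∀ x y, ρ < ‖x - y‖ → T x y = 0
  bdd : ∃ b : ℝ, ∀ x y, |T x y| ≤ b

/-- The profile of the random hopping: `∑ κ(z)² |z|^θ < ∞` for some `θ > 0`, and on finite sets `S`
on which `|κ|` is constant up to a fixed factor, `|S|` and `∑_{z ∈ S} |κ z|` are unbounded. -/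
structure Profile {d : ℕ} (κ : (Fin d → ℤ) → ℝ) : Prop where
  zero : κ 0 = 0
  even : ∀ z, κ (-z) = κ z
  small : ∃ θ : ℝ, 0 < θ ∧ Summable fun z => κ z ^ 2 * ‖z‖ ^ θ
  large : ∃ B : ℝ, ∀ A : ℝ, ∃ (S : Finset (Fin d → ℤ)) (β : ℝ), 0 < β ∧
    (∀ z ∈ S, β ≤ |κ z| ∧ |κ z| ≤ B * β) ∧ A ≤ S.card ∧ A ≤ β * S.card

/-- the kernel of `Δ` -/
def nn {d : ℕ} (x y : Fin d → ℤ) : ℝ := if ∑ i, |x i - y i| = 1 then 1 else 0

/-- the power law `ε / |z|^α`, `|z| = max |z_i|` -/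
def powerLaw {d : ℕ} (ε α : ℝ) (z : Fin d → ℤ) : ℝ := if z = 0 then 0 else ε / ‖z‖ ^ α

theorem general {d : ℕ} {T : (Fin d → ℤ) → (Fin d → ℤ) → ℝ} {κ : (Fin d → ℤ) → ℝ} (hT : Short T)
    (hκ : Profile κ) {σ : ℝ} (hσ : σ ≠ 0) : NoEigenfunctions d T κ σ := by
  obtain ⟨ρ, hρ⟩ := hT.range
  obtain ⟨b, hb⟩ := hT.bdd
  obtain ⟨θ, hθ, hsum⟩ := hκ.small
  obtain ⟨B, hB⟩ := hκ.large
  have hBig : Pool.Agent.U319.PLE.Big κ B := by
    intro A
    obtain ⟨S, β, h1, h2, h3, h4⟩ := hB (max A 1)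
    refine ⟨S, β, h1, ?_, ?_, h2, (le_max_left _ _).trans h3, (le_max_left _ _).trans h4⟩
    · intro h0
      have := (h2 0 h0).1
      rw [hκ.zero, abs_zero] at this
      linarith
    · rw [← Finset.card_pos]
      have : (1 : ℝ) ≤ S.card := (le_max_right _ _).trans h3
      exact_mod_cast this
  exact Pool.Agent.U319.PLE.mainGen hT.symm hT.diag hρ hb hκ.zero hκ.even hBig hθ hsum hσ

theorem nn_short {d : ℕ} : Short (nn : (Fin d → ℤ) → (Fin d → ℤ) → ℝ) := by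
  refine ⟨?_, ?_, ⟨1, ?_⟩, ⟨1, ?_⟩⟩
  · intro x y
    unfold nn
    simp only [abs_sub_comm]
  · intro x
    unfold nn
    simp
  · intro x y h
    unfold nn
    rw [if_neg]
    intro h1
    have h2 : ‖x - y‖ ≤ 1 := by
      rw [pi_norm_le_iff_of_nonneg zero_le_one]
      intro i
      rw [Int.norm_eq_abs, Pi.sub_apply]
      have h3 : |x i - y i| ≤ ∑ i, |x i - y i| :=
        Finset.single_le_sum (f := fun i => |x i - y i|) (fun i _ => abs_nonneg _)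
          (Finset.mem_univ i)
      rw [h1] at h3
      exact_mod_cast h3
    linarith
  · intro x y
    unfold nn
    split_ifs <;> simp

theorem powerLaw_profile {d : ℕ} (hd : 1 ≤ d) {ε α : ℝ} (hε : ε ≠ 0) (h1 : (d : ℝ) / 2 < α)
    (h2 : α < d) : Profile (powerLaw ε α : (Fin d → ℤ) → ℝ) := by
  have hd' : (1 : ℝ) ≤ d := by exact_mod_cast hd
  have hα : 0 < α := by linarith
  have hP : Pool.Agent.U319.PLE.Pow (powerLaw ε α : (Fin d → ℤ) → ℝ) α |ε| |ε| := by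
    have h3 : ∀ z : Fin d → ℤ, z ≠ 0 → |powerLaw ε α z| = |ε| * ‖z‖ ^ (-α) := by
      intro z hz
      unfold powerLaw
      rw [if_neg hz, abs_div, Real.rpow_neg (norm_nonneg z), div_eq_mul_inv,
        abs_of_nonneg (by positivity : (0 : ℝ) ≤ ‖z‖ ^ α)]
    refine ⟨?_, ?_, ?_, ?_⟩
    · simp [powerLaw]
    · intro z
      simp [powerLaw]
    · intro z hz
      exact (h3 z hz).ge
    · intro z hz
      exact (h3 z hz).le
  refine ⟨hP.zero, hP.even, ⟨(2 * α - d) / 2, by linarith,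
    Pool.Agent.U319.PLE.pow_summable hP (by linarith)⟩, ⟨(|ε| / |ε|) * 2 ^ α, ?_⟩⟩
  intro A
  obtain ⟨S, β, e1, -, -, e2, e3, e4⟩ :=
    Pool.Agent.U319.PLE.pow_big hd hP (abs_pos.2 hε) hα h2 A
  exact ⟨S, β, e1, e2, e3, e4⟩

/-- Let `σ ≠ 0`. For every deterministic bounded symmetric hopping `T` of finite range and every
profile `κ` as above the operator with hopping `T(x, y) + s_{xy} κ(x - y)` and potential `σ ξ(x)` has
almost surely no eigenfunctions. For instance `T = nn` (that is `Δ`) and `κ = powerLaw ε α` with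
`ε ≠ 0`, `d/2 < α < d`: see `deltaPowerLaw`. -/
theorem result (d : ℕ) (T : (Fin d → ℤ) → (Fin d → ℤ) → ℝ) (κ : (Fin d → ℤ) → ℝ)
    (hT : Short T) (hκ : Profile κ) (σ : ℝ) (hσ : σ ≠ 0) : NoEigenfunctions d T κ σ :=
  general hT hκ hσ

/-- For `d ≥ 1`, `σ ≠ 0`, `ε ≠ 0` and `d/2 < α < d` the operator `Δ + W + σ ξ`, where `W` has the
random hopping `± ε / |x - y|^α`, has almost surely no eigenfunctions. -/
theorem deltaPowerLaw (d : ℕ) (hd : 1 ≤ d) (σ ε α : ℝ) (hσ : σ ≠ 0) (hε : ε ≠ 0)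
    (h1 : (d : ℝ) / 2 < α) (h2 : α < d) : NoEigenfunctions d nn (powerLaw ε α) σ :=
  result d nn (powerLaw ε α) nn_short (powerLaw_profile hd hε h1 h2) σ hσ

end

end Pool.Agent.Results.MP_1906c1_mp.LongRangeHoppingContinuous
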