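import Pool.Agent.U874.And.SharpG

/-!
# Gaussian disorder on `ℤ^d`, `d ≥ 5`: the density of the sites that prevent an extended state at the
edge of the spectrum is `exp(-Θ(σ^(-2)))`

`H_σ = Δ + σ ξ` on `ℓ²(ℤ^d)`, `(Δψ)(x) = ∑_{|y-x|=1} ψ(y)`, iid standard Gaussian `ξ`, `σ` small.

* (A) There is a translation invariant coupling of `ξ` with a potential `ξ'` on the whole lattice
  such that `ξ'` differs from `ξ` at a given site with probability at most `exp(-c / σ²)`, and almost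
  surely `|ξ'| ≤ 3/σ` and `Δ + σ ξ'` has an extended generalised eigenfunction: a solution `ψ` of
  `Δψ + σ ξ'ψ = E ψ` on `ℤ^d` with `1 ≤ ψ ≤ 1 + η`, where `E = 2d + O(σ)` is deterministic and is the
  top of the spectrum on `ℓ²(ℤ^d)`. The numbers of eigenvalues above a given energy in finite sets are
  comparable with those of `Δ` (no Lifshitz tails), and every unit vector `f` of an invariant
  subspace of energies at least `E - s` satisfies `|f x|² ≤ C s^(d/2)`, with `C = C(d)`.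
* (B) The order is optimal, in every dimension `d ≥ 1`: if `ξ` is coupled in any way with a potential
  `ξ'` for which `Δψ + σ ξ'ψ = E ψ` has a solution with `1 ≤ ψ ≤ M`, for some (possibly random) `E`,
  then `ξ'` differs from `ξ` at some site with probability at least `exp(-C / σ²)`.

The result `MP_1906c1_mp.RareSites` treats tori only, with the density `exp(-c σ^(-2d/(d+4)))`, which
is larger than `exp(-c / σ²)`, and it has no lower bound. For potentials with values in `[-1, 1]` the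
optimal density is `exp(-Θ(λ^(-d/2)))` (`MP_28b024_mp.SharpRareChanges`).

The proof uses the penalised ground state equation and the Gaussian concentration bound of the
library `Pool/Agent/H4R2/AE` (files `Good`, `Goodg`, `Modi`), with the potential `σ ξ` clipped at
`±1`, and the torus Nash inequality of `Pool/Agent/H541R3/AND`. The rest is in
`Pool/Agent/U874/And/`.
-/

set_option autoImplicit false

namespace Pool.Agent.Results.MP_1906c1_mp.SharpRareSitesGaussian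

open MeasureTheory ProbabilityTheory
open scoped InnerProductSpace

/-- the lattice `ℤ^d` -/
abbrev Lat (d : ℕ) : Type := Fin d → ℤ

/-- `Δ + σ V` on real functions on `ℤ^d`, `(Δ f)(x) = ∑_{|y - x| = 1} f(y)` -/
noncomputable def Hop {d : ℕ} (σ : ℝ) (V f : Lat d → ℝ) (x : Lat d) : ℝ :=
  ∑ i : Fin d, (f (x + Pi.single i 1) + f (x - Pi.single i 1)) + σ * V x * f x

/-- `ℓ²(ℤ^d)` -/
abbrev L2 (d : ℕ) : Type := lp (fun _ : Lat d => ℂ) 2

/-- the bounded operator `H` on `ℓ²(ℤ^d)` is `Δ + σ V` -/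
def IsH {d : ℕ} (σ : ℝ) (V : Lat d → ℝ) (H : L2 d →L[ℂ] L2 d) : Prop :=
  ∀ (f : L2 d) (x : Lat d), (H f) x =
    ∑ i : Fin d, (f (x + Pi.single i 1) + f (x - Pi.single i 1)) + ((σ * V x : ℝ) : ℂ) * f x

/-- the restriction of `Δ + σ V` to the functions on the finite set `Λ` has at least `k`
eigenvalues, counted with multiplicity, that are at least `t` (min-max principle) -/
def Eigs {d : ℕ} (σ : ℝ) (V : Lat d → ℝ) (Λ : Finset (Lat d)) (t : ℝ) (k : ℕ) : Prop :=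
  ∃ W : Submodule ℝ (Lat d → ℝ), Module.finrank ℝ W = k ∧ ∀ f ∈ W, (∀ x ∉ Λ, f x = 0) ∧
    t * ∑ x ∈ Λ, f x ^ 2 ≤ ∑ x ∈ Λ, f x * Hop σ V f x

/-- `Δ + σ V` has a generalised eigenfunction with energy `E` and values in `[1, M]` -/
def Flat {d : ℕ} (M σ E : ℝ) (V : Lat d → ℝ) : Prop :=
  ∃ ψ : Lat d → ℝ, (∀ x, 1 ≤ ψ x ∧ ψ x ≤ M) ∧ ∀ x, Hop σ V ψ x = E * ψ x

/-- the numbers of eigenvalues in finite sets above `E - s` are comparable with those of `Δ` above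
`2 d - s`, up to a factor `1 / κ` or `κ` in `s` -/
def Comparable {d : ℕ} (κ σ E : ℝ) (V : Lat d → ℝ) : Prop :=
  ∀ (Λ : Finset (Lat d)) (s : ℝ) (k : ℕ), 0 ≤ s →
    (Eigs 0 (0 : Lat d → ℝ) Λ (2 * d - s) k → Eigs σ V Λ (E - κ * s) k) ∧
    (Eigs σ V Λ (E - s) k → Eigs 0 (0 : Lat d → ℝ) Λ (2 * d - κ * s) k)

/-- `E` is the top of the spectrum of `H`, in terms of the quadratic form -/
def IsTop {d : ℕ} (E : ℝ) (H : L2 d →L[ℂ] L2 d) : Prop :=
  (∀ f : L2 d, (⟪f, H f⟫_ℂ).re ≤ E * ‖f‖ ^ 2) ∧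
  ∀ ε : ℝ, 0 < ε → ∃ f : L2 d, f ≠ 0 ∧ (E - ε) * ‖f‖ ^ 2 ≤ (⟪f, H f⟫_ℂ).re

/-- the states of all invariant subspaces `M` of energies at least `E - s` are spread over at least
`1 / (C s^(d/2))` sites -/
def Spread {d : ℕ} (C E : ℝ) (H : L2 d →L[ℂ] L2 d) : Prop :=
  ∀ s : ℝ, 0 < s → ∀ M : Submodule ℂ (L2 d), (∀ f ∈ M, H f ∈ M) →
    (∀ f ∈ M, (E - s) * ‖f‖ ^ 2 ≤ (⟪f, H f⟫_ℂ).re) →
    ∀ f ∈ M, ∀ x, ‖f x‖ ^ 2 ≤ C * s ^ ((d : ℝ) / 2) * ‖f‖ ^ 2

/-- `Δ + σ V` has an extended generalised eigenfunction with values in `[1, 1 + η]` and energy `E`,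
the top of the spectrum, and the spectrum near `E` is comparable with that of `Δ` near `2 d` -/
def Extended {d : ℕ} (C η σ E : ℝ) (V : Lat d → ℝ) : Prop :=
  Flat (1 + η) σ E V ∧ Comparable ((1 + η) ^ 2) σ E V ∧
    ∃ H : L2 d →L[ℂ] L2 d, IsH σ V H ∧ IsTop E H ∧ Spread C E H

/-- pairs `(ξ, ξ')` of potentials -/
abbrev Pairs (d : ℕ) : Type := (Lat d → ℝ) × (Lat d → ℝ)

/-- `P` is the law of a pair `(ξ, ξ')` such that `ξ` is iid standard Gaussian -/
def IsCoupling {d : ℕ} (P : Measure (Pairs d)) : Prop :=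
  IsProbabilityMeasure P ∧ P.map Prod.fst = Measure.infinitePi (fun _ : Lat d => gaussianReal 0 1)

/-- `P` is invariant under the translations of the lattice -/
def Stationary {d : ℕ} (P : Measure (Pairs d)) : Prop :=
  ∀ a : Lat d, P.map (fun p => (fun x => p.1 (x + a), fun x => p.2 (x + a))) = P

/-- **(A)** `d ≥ 5`: changes of density `exp(-c / σ²)` suffice.
**(B)** `d ≥ 1`: changes of density less than `exp(-C / σ²)` do not suffice. -/
theorem result :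
    (∀ d : ℕ, 5 ≤ d → ∃ C : ℝ, 0 < C ∧ ∀ η : ℝ, 0 < η → η ≤ 1 →
      ∃ c : ℝ, 0 < c ∧ ∀ σ : ℝ, 0 < σ → σ ≤ c → ∃ E : ℝ, |E - 2 * d| ≤ 8 * σ ∧
        ∃ P : Measure (Pairs d), IsCoupling P ∧ Stationary P ∧
          P.real {p | p.2 0 ≠ p.1 0} ≤ Real.exp (-(c / σ ^ 2)) ∧
          ∀ᵐ p ∂P, (∀ x, |p.2 x| ≤ 3 / σ) ∧ Extended C η σ E p.2) ∧
    (∀ d : ℕ, 1 ≤ d → ∀ M : ℝ, 1 ≤ M → ∃ C : ℝ, 0 < C ∧ ∀ σ : ℝ, 0 < σ → σ ≤ 1 →
      ∀ P : Measure (Pairs d), IsCoupling P → (∀ᵐ p ∂P, ∃ E : ℝ, Flat M σ E p.2) →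
        ∃ x, Real.exp (-(C / σ ^ 2)) ≤ P.real {p | p.2 x ≠ p.1 x}) := by
  refine ⟨fun d hd => ?_, ?_⟩
  · obtain ⟨C, hC, h⟩ := Pool.Agent.U874.And.main_G d hd
    refine ⟨C, hC, fun η hη hη1 => ?_⟩
    obtain ⟨c, hc, h⟩ := h η hη hη1
    refine ⟨c, hc, fun σ hσ hσc => ?_⟩
    obtain ⟨E, hE, P, hP, h1, h2, h3, h4⟩ := h σ hσ hσc
    refine ⟨E, hE, P, ⟨hP, h1⟩, h2, h3, ?_⟩
    filter_upwards [h4] with p hp
    obtain ⟨g00, g0, g1, H, g3, g4, g5, g6⟩ := hp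
    exact ⟨g00, g0, g1, H, g3, ⟨g4, g5⟩, g6⟩
  · intro d hd M hM
    obtain ⟨C, hC, h⟩ := Pool.Agent.U874.And.sharpG d hd M hM
    exact ⟨C, hC, fun σ hσ hσ1 P hP hae => h σ hσ hσ1 P hP.1 hP.2 hae⟩

end Pool.Agent.Results.MP_1906c1_mp.SharpRareSitesGaussian
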