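import Pool.Agent.U619.UN.All
import Mathlib.Probability.Distributions.Gaussian.Real

/-!
# Gaussian Anderson model: all moments of the position are subballistic at every disorder,
uniformly in the disorder

`H_σ = Δ + σ ξ(x)` on `ℓ²(ℤ^d)`, `(Δu)(x) = ∑_{|y-x|=1} u(y)`, `ξ(x)` iid standard Gaussian, `d ≥ 1`.
For every `σ ≠ 0`, however small, and almost every `ξ`: for all exponents `p > 0` and all finitely
supported initial states `u`, the `p`-th moment of the position satisfies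
`∑_x |x|^p |(e^{-itH} u)(x)|² = o(t^p)`, and for every `u` in `ℓ²(ℤ^d)` and `ε > 0` the part of
`e^{-itH} u` outside the ball of radius `ε t` tends to zero. The mean over the disorder of the `p`-th
moment of `e^{-itH} δ_0` is `o(t^p)` for every `p > 0`, uniformly in all `σ` with `|σ| ≥ σ_1`, for
every `σ_1 > 0`. So at small disorder, where extended states are expected, no part of any wave packet
moves ballistically.
-/

set_option autoImplicit false

open MeasureTheory Filter Topology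
open scoped BigOperators ENNReal NNReal InnerProductSpace

namespace Pool.Agent.Results.MP_1906c1_mp.SubballisticMoments

/-- `ℓ²(ℤ^d)` -/
abbrev L2 (d : ℕ) : Type := lp (fun _ : Fin d → ℤ => ℂ) 2

/-- `(H_σ u)(x) = ∑_{|y-x|=1} u(y) + σ ξ(x) u(x)` -/
noncomputable def H {d : ℕ} (σ : ℝ) (ξ : (Fin d → ℤ) → ℝ) (u : (Fin d → ℤ) → ℂ)
    (x : Fin d → ℤ) : ℂ :=
  (∑ i : Fin d, (u (x + Pi.single i 1) + u (x - Pi.single i 1))) + ((σ * ξ x : ℝ) : ℂ) * u x

/-- `U t = e^{-itH}`: norm preserving maps of `ℓ²(ℤ^d)` with `U 0 = 1` and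
`i ∂_t (U_t u) = H U_t u` at every site -/
structure IsPropagator {d : ℕ} (σ : ℝ) (ξ : (Fin d → ℤ) → ℝ) (U : ℝ → L2 d → L2 d) : Prop where
  zero : ∀ u, U 0 u = u
  norm : ∀ t u, ‖U t u‖ = ‖u‖
  schrodinger : ∀ u t x, HasDerivAt (fun s => (U s u) x)
    (-Complex.I * H σ ξ (fun k => (U t u) k) x) t

/-- the `p`-th moment `∑_x |x|^p |u(x)|²` of the position in the state `u` (Euclidean norm) -/
noncomputable def moment {d : ℕ} (p : ℝ) (u : L2 d) : ℝ≥0∞ :=
  ∑' x : Fin d → ℤ, ENNReal.ofReal ((∑ i : Fin d, (x i : ℝ) ^ 2) ^ (p / 2)) * ‖u x‖ₑ ^ 2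

/-- `∑_{|x| > R} |u(x)|²`, the probability to be at distance more than `R` in the state `u` -/
noncomputable def farMass {d : ℕ} (R : ℝ) (u : L2 d) : ℝ≥0∞ :=
  ∑' x : Fin d → ℤ, if R ^ 2 < ∑ i : Fin d, (x i : ℝ) ^ 2 then ‖u x‖ₑ ^ 2 else 0

/-- the law of iid standard Gaussian variables on `ℤ^d` -/
noncomputable def gaussianField (d : ℕ) : Measure ((Fin d → ℤ) → ℝ) :=
  Measure.infinitePi fun _ => ProbabilityTheory.gaussianReal 0 1

open Pool.Agent.H5R2.NB Pool.Agent.U619.NB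

theorem hop_eq' {d : ℕ} (σ : ℝ) (ξ : (Fin d → ℤ) → ℝ) (u : (Fin d → ℤ) → ℂ) (x : Fin d → ℤ) :
    hopf 1 u x + (((0 + σ * ξ x : ℝ)) : ℂ) * u x = H σ ξ u x := by
  unfold hopf H
  push_cast
  ring

theorem sol_of_prop {d : ℕ} {σ : ℝ} {ξ : (Fin d → ℤ) → ℝ} {U : ℝ → L2 d → L2 d}
    (hU : IsPropagator σ ξ U) (u : L2 d) :
    IsSol 1 (fun x => 0 + σ * ξ x) (fun t => U t u) (fun _ => 0) := by
  refine ⟨fun T => ⟨‖u‖, fun t _ => (hU.norm t u).le⟩, fun t x => ?_⟩
  have h := hU.schrodinger u t x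
  rw [← hop_eq' σ ξ (fun k => (U t u) k) x] at h
  simpa using h

theorem prop_of_grp {d : ℕ} {σ : ℝ} {ξ : (Fin d → ℤ) → ℝ}
    {W : UG (Pool.Agent.H5R2.NB.L2 (Site d))}
    (hW : IsGrp 1 (fun x => 0 + σ * ξ x) W) : IsPropagator σ ξ (fun t u => W.U t u) := by
  refine ⟨W.zero', W.norm', fun u t x => ?_⟩
  have h := (hW u).2 t x
  rw [← hop_eq' σ ξ (fun k => (W.U t u) k) x]
  simpa using h

theorem prop_eq {d : ℕ} {σ : ℝ} {ξ : (Fin d → ℤ) → ℝ} {W : UG (Pool.Agent.H5R2.NB.L2 (Site d))}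
    (hW : IsGrp 1 (fun x => 0 + σ * ξ x) W) {U : ℝ → L2 d → L2 d}
    (hU : IsPropagator σ ξ U) (t : ℝ) (u : L2 d) : U t u = W.U t u := by
  have h := Pool.Agent.H5R2.NB.ALL.a_UN d 1 _ W hW (fun t => U t u) (fun _ => 0)
    continuous_const (sol_of_prop hU u) t
  simpa [hU.zero u] using h

theorem fin_M2 {d : ℕ} (u : L2 d) (hu : {x | u x ≠ 0}.Finite) : M2 u ≠ ∞ := by
  unfold M2
  rw [tsum_eq_sum (s := hu.toFinset) (by
    intro x hx
    have : u x = 0 := by simpa using hx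
    rw [this]
    simp)]
  exact ENNReal.sum_ne_top.2 fun x _ =>
    ENNReal.mul_ne_top ENNReal.ofReal_ne_top (ENNReal.pow_ne_top enorm_ne_top)

theorem fin_EE {d : ℕ} (j : Fin d) (u : L2 d) (hu : {x | u x ≠ 0}.Finite) : EE j u ≠ ∞ := by
  unfold EE
  rw [tsum_eq_sum (s := hu.toFinset) (by
    intro x hx
    have : u x = 0 := by simpa using hx
    rw [this]
    simp)]
  exact ENNReal.sum_ne_top.2 fun x _ =>
    ENNReal.mul_ne_top ENNReal.ofReal_ne_top (ENNReal.pow_ne_top enorm_ne_top)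

theorem gauss_atom (r : ℝ) : (ProbabilityTheory.gaussianReal 0 1 : Measure ℝ) {r} = 0 := by
  have := ProbabilityTheory.nullSingletonClass_gaussianReal (μ := 0) (v := 1) one_ne_zero
  exact measure_singleton r

theorem gauss_ne (r : ℝ) : (ProbabilityTheory.gaussianReal 0 1 : Measure ℝ) {r} ≠ 1 := by
  rw [gauss_atom]
  exact zero_ne_one

/-- For every dimension `d ≥ 1` the unitary group `e^{-itH_σ}` exists and is unique for every `σ` and
every `ξ`. If `σ ≠ 0` then for almost every Gaussian `ξ` the `p`-th moment of the position in the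
state `e^{-itH_σ} u` is `o(t^p)` for all `p > 0` and all finitely supported `u`, and for all `u` in
`ℓ²(ℤ^d)` and `ε > 0` the probability to be at time `t` at distance more than `ε t` tends to `0`. The
mean over the disorder of the `p`-th moment of `e^{-itH_σ} δ_0` is `o(t^p)` for all `p > 0`, uniformly
in `|σ| ≥ σ_1`, for every `σ_1 > 0`. -/
theorem result (d : ℕ) (hd : 1 ≤ d) :
    (∀ (σ : ℝ) (ξ : (Fin d → ℤ) → ℝ), ∃! U : ℝ → L2 d → L2 d, IsPropagator σ ξ U) ∧
    ∀ U : ℝ → ((Fin d → ℤ) → ℝ) → ℝ → L2 d → L2 d, (∀ σ ξ, IsPropagator σ ξ (U σ ξ)) →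
      (∀ σ : ℝ, σ ≠ 0 → ∀ᵐ ξ ∂(gaussianField d),
        (∀ p : ℝ, 0 < p → ∀ u : L2 d, {x | u x ≠ 0}.Finite →
          Tendsto (fun t : ℝ => moment p (U σ ξ t u) / ENNReal.ofReal (t ^ p)) atTop (𝓝 0)) ∧
        (∀ u : L2 d, ∀ ε : ℝ, 0 < ε →
          Tendsto (fun t : ℝ => farMass (ε * t) (U σ ξ t u)) atTop (𝓝 0))) ∧
      ∀ σ₁ : ℝ, 0 < σ₁ → ∀ p : ℝ, 0 < p → ∀ ε : ℝ, 0 < ε → ∃ t₀ : ℝ, ∀ t : ℝ, t₀ ≤ t →
        ∀ σ : ℝ, σ₁ ≤ |σ| →
          ∫⁻ ξ, moment p (U σ ξ t (lp.single 2 0 1)) ∂(gaussianField d) ≤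
            ENNReal.ofReal (ε * t ^ p) := by
  refine ⟨fun σ ξ => ?_, fun U hU => ?_⟩
  · obtain ⟨W, hW⟩ := Pool.Agent.H5R2.NB.ALL.a_EX d 1 (fun x => 0 + σ * ξ x)
    refine ⟨fun t u => W.U t u, prop_of_grp hW, fun U hU => ?_⟩
    funext t u
    exact prop_eq hW hU t u
  · choose ev hev using fun V : Site d → ℝ => Pool.Agent.H5R2.NB.ALL.a_EX d 1 V
    let γ : ProbabilityMeasure ℝ := ⟨ProbabilityTheory.gaussianReal 0 1, inferInstance⟩
    have hγ : (γ : Measure ℝ) = ProbabilityTheory.gaussianReal 0 1 := rfl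
    have hg : ∀ σ : ℝ, Measurable (fun r : ℝ => 0 + σ * r) := fun σ => by fun_prop
    have hgm : ∀ σ : ℝ, Measurable (fun (ξ : Site d → ℝ) (x : Site d) => 0 + σ * ξ x) :=
      fun σ => measurable_pi_iff.2 fun x => (hg σ).comp (measurable_pi_apply x)
    have hmap : ∀ σ : ℝ, (gaussianField d).map
        (fun (ξ : Site d → ℝ) (x : Site d) => 0 + σ * ξ x) =
        PP d ((Pool.Agent.U619.UN.aff 0 (σ, γ) : ProbabilityMeasure ℝ) : Measure ℝ) := by
      intro σ
      unfold PP gaussianField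
      rw [Pool.Agent.U619.UN.aff_coe]
      exact Measure.infinitePi_map_pi
        (μ := fun _ : Site d => ProbabilityTheory.gaussianReal 0 1) (fun _ => hg σ)
    have hUe : ∀ σ ξ t u, U σ ξ t u = (ev fun x => 0 + σ * ξ x).U t u := by
      intro σ ξ t u
      exact prop_eq (hev _) (hU σ ξ) t u
    constructor
    · intro σ hσ
      have hne := Pool.Agent.U619.UN.aff_ne 0 σ hσ γ (fun r => gauss_ne r)
      have hall := (Pool.Agent.U619.ZV.all_zero hev hne).and
        (Pool.Agent.U619.ZV.moments hd hev hne)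
      rw [← hmap] at hall
      have hall2 := ae_of_ae_map (hgm σ).aemeasurable hall
      filter_upwards [hall2] with ξ hξ
      refine ⟨fun p hp u hu => ?_, fun u ε hε => ?_⟩
      · refine (hξ.2 p hp u (fin_M2 u hu) (fun j => fin_EE j u hu)).congr fun t => ?_
        rw [hUe]
        rfl
      · refine ((hξ.1 u).2.2 ε hε).congr fun t => ?_
        rw [hUe]
        rfl
    · intro σ₁ hσ₁ p hp ε hε
      obtain ⟨t₀, ht₀⟩ := Pool.Agent.U619.UN.unif_all hd hev 0 {γ} isCompact_singleton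
        (fun μ hμ κ => by
          rw [Set.mem_singleton_iff] at hμ
          rw [hμ]
          exact gauss_atom κ) σ₁ hσ₁ p hp ε hε
      refine ⟨t₀, fun t ht σ h1 => ?_⟩
      refine le_trans (le_of_eq ?_) (ht₀ t ht γ (Set.mem_singleton _) σ h1)
      rw [Pool.Agent.U619.UN.lint_aff (fun V => Mp p ((ev V).U t (dl 0)))
        (Pool.Agent.U619.UN.meas_Mp hev p t)]
      refine lintegral_congr fun ξ => ?_
      unfold moment Mp
      refine tsum_congr fun x => ?_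
      rw [hUe]
      rfl

end Pool.Agent.Results.MP_1906c1_mp.SubballisticMoments
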